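import Mathlib

/-!
# Nearly independent subsequences of an orthonormal sequence of signs (helper84)

`l` is a sequence of signs whose translates are asymptotically orthogonal along an ultrafilter of
scales. Every infinite set of shifts contains an infinite subset on which the signs are nearly
independent.
-/

set_option autoImplicit false

namespace Pool.Agent.Helper84K9.IS

open Finset Filter Topology

/-- the product of the signs at the places `n + a`, `a ∈ T` -/
noncomputable def X (l : ℕ → ℝ) (T : Finset ℕ) (n : ℕ) : ℝ := ∏ a ∈ T, l (n + a)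

/-- the weighted correlation -/
noncomputable def I (w l : ℕ → ℝ) (T : Finset ℕ) (N : ℕ) : ℝ := ∑ n ∈ range N, w n * X l T n

/-- the sum of the absolute values of the weighted correlations of the nonempty subsets -/
noncomputable def D (w l : ℕ → ℝ) (B : Finset ℕ) (N : ℕ) : ℝ :=
  ∑ T ∈ B.powerset.erase ∅, |I w l T N|

/-- the total weight -/
noncomputable def W (w : ℕ → ℝ) (N : ℕ) : ℝ := ∑ n ∈ range N, w n

/-- Bessel's inequality for nearly orthogonal functions -/
theorem bessel (C : Finset ℕ) (g : ℕ → ℝ) (u : ℕ → ℕ → ℝ) (N : ℕ) (η : ℝ) (hη : 0 ≤ η)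
    (h1 : ∀ a ∈ C, ∑ n ∈ range N, u a n ^ 2 ≤ N)
    (h2 : ∀ a ∈ C, ∀ b ∈ C, a ≠ b → |∑ n ∈ range N, u a n * u b n| ≤ η * N) :
    ∑ a ∈ C, (∑ n ∈ range N, g n * u a n) ^ 2 ≤
      N * (1 + C.card * η) * ∑ n ∈ range N, g n ^ 2 := by
  obtain ⟨c, hc⟩ : ∃ c : ℕ → ℝ, c = fun a => ∑ n ∈ range N, g n * u a n := ⟨_, rfl⟩
  obtain ⟨S, hS⟩ : ∃ S : ℝ, S = ∑ a ∈ C, c a ^ 2 := ⟨_, rfl⟩
  obtain ⟨G, hG⟩ : ∃ G : ℝ, G = ∑ n ∈ range N, g n ^ 2 := ⟨_, rfl⟩
  have hS0 : 0 ≤ S := by rw [hS]; exact sum_nonneg fun a _ => sq_nonneg _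
  have hG0 : 0 ≤ G := by rw [hG]; exact sum_nonneg fun a _ => sq_nonneg _
  have hN0 : (0 : ℝ) ≤ N := Nat.cast_nonneg N
  have e1 : S = ∑ n ∈ range N, g n * ∑ a ∈ C, c a * u a n := by
    have : ∀ n ∈ range N, g n * ∑ a ∈ C, c a * u a n = ∑ a ∈ C, c a * (g n * u a n) := by
      intro n _
      rw [mul_sum]
      exact sum_congr rfl fun a _ => by ring
    rw [sum_congr rfl this, sum_comm, hS]
    refine sum_congr rfl fun a _ => ?_
    rw [← mul_sum, sq]
    congr 1
    rw [hc]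
  have e2 : ∑ n ∈ range N, (∑ a ∈ C, c a * u a n) ^ 2 ≤ N * (1 + C.card * η) * S := by
    have e3 : ∑ n ∈ range N, (∑ a ∈ C, c a * u a n) ^ 2 =
        ∑ a ∈ C, ∑ b ∈ C, c a * c b * ∑ n ∈ range N, u a n * u b n := by
      have : ∀ n ∈ range N, (∑ a ∈ C, c a * u a n) ^ 2 =
          ∑ a ∈ C, ∑ b ∈ C, c a * c b * (u a n * u b n) := by
        intro n _
        rw [sq, sum_mul_sum]
        exact sum_congr rfl fun a _ => sum_congr rfl fun b _ => by ring
      rw [sum_congr rfl this, sum_comm]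
      refine sum_congr rfl fun a _ => ?_
      rw [sum_comm]
      exact sum_congr rfl fun b _ => (mul_sum _ _ _).symm
    rw [e3]
    have e4 : ∀ a ∈ C, ∀ b ∈ C, c a * c b * ∑ n ∈ range N, u a n * u b n ≤
        (if a = b then N * c a ^ 2 else 0) + η * N * (c a ^ 2 + c b ^ 2) / 2 := by
      intro a ha b hb
      have h0 : 0 ≤ η * N * (c a ^ 2 + c b ^ 2) / 2 := by positivity
      by_cases hab : a = b
      · subst hab
        rw [if_pos rfl]
        have h3 := h1 a ha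
        have h4 : ∑ n ∈ range N, u a n * u a n ≤ N := by
          refine le_trans (le_of_eq ?_) h3
          exact sum_congr rfl fun n _ => (sq _).symm
        have h5 : c a * c a * ∑ n ∈ range N, u a n * u a n ≤ c a * c a * N :=
          mul_le_mul_of_nonneg_left h4 (mul_self_nonneg _)
        nlinarith
      · rw [if_neg hab, zero_add]
        have h3 := h2 a ha b hb hab
        refine (le_abs_self _).trans ?_
        rw [abs_mul]
        have h4 : |c a * c b| ≤ (c a ^ 2 + c b ^ 2) / 2 := by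
          rw [abs_le]
          constructor <;> nlinarith [sq_nonneg (c a - c b), sq_nonneg (c a + c b)]
        calc |c a * c b| * |∑ n ∈ range N, u a n * u b n| ≤
            (c a ^ 2 + c b ^ 2) / 2 * (η * N) := mul_le_mul h4 h3 (abs_nonneg _) (by positivity)
          _ = _ := by ring
    refine (sum_le_sum fun a ha => sum_le_sum fun b hb => e4 a ha b hb).trans ?_
    have e5 : ∑ a ∈ C, ∑ b ∈ C, ((if a = b then N * c a ^ 2 else 0) +
        η * N * (c a ^ 2 + c b ^ 2) / 2) = N * S + η * N * (C.card * S) := by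
      simp only [sum_add_distrib]
      have h3 : ∑ a ∈ C, ∑ b ∈ C, (if a = b then (N : ℝ) * c a ^ 2 else 0) = N * S := by
        rw [hS, mul_sum]
        refine sum_congr rfl fun a ha => ?_
        rw [sum_ite_eq, if_pos ha]
      have h4 : ∑ a ∈ C, ∑ b ∈ C, η * N * (c a ^ 2 + c b ^ 2) / 2 = η * N * (C.card * S) := by
        have : ∀ a ∈ C, ∑ b ∈ C, η * N * (c a ^ 2 + c b ^ 2) / 2 =
            η * N / 2 * (C.card * c a ^ 2 + S) := by
          intro a _
          have h5 : ∀ b ∈ C, η * N * (c a ^ 2 + c b ^ 2) / 2 = η * N / 2 * (c a ^ 2 + c b ^ 2) :=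
            fun b _ => by ring
          rw [sum_congr rfl h5, ← mul_sum, sum_add_distrib, sum_const, nsmul_eq_mul, ← hS]
        rw [sum_congr rfl this, ← mul_sum, sum_add_distrib, ← mul_sum, ← hS, sum_const,
          nsmul_eq_mul]
        ring
      rw [h3, h4]
    rw [e5]
    apply le_of_eq
    ring
  have e6 : S ^ 2 ≤ G * (N * (1 + C.card * η) * S) := by
    calc S ^ 2 = (∑ n ∈ range N, g n * ∑ a ∈ C, c a * u a n) ^ 2 := by rw [← e1]
      _ ≤ (∑ n ∈ range N, g n ^ 2) * ∑ n ∈ range N, (∑ a ∈ C, c a * u a n) ^ 2 :=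
          sum_mul_sq_le_sq_mul_sq _ _ _
      _ ≤ G * (N * (1 + C.card * η) * S) := by
          rw [← hG]
          exact mul_le_mul_of_nonneg_left e2 hG0
  have e7 : ∑ a ∈ C, (∑ n ∈ range N, g n * u a n) ^ 2 = S := by
    rw [hS, hc]
  rw [e7, ← hG]
  rcases hS0.eq_or_lt with h | h
  · rw [← h]
    positivity
  · have h3 : S * S ≤ (N * (1 + C.card * η) * G) * S := by nlinarith
    exact le_of_mul_le_mul_right h3 h

section

variable {w l : ℕ → ℝ}

lemma X_sq (hl : ∀ n, l n ^ 2 = 1) (T : Finset ℕ) (n : ℕ) : X l T n ^ 2 = 1 := by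
  unfold X
  rw [← prod_pow]
  exact prod_eq_one fun a _ => hl _

lemma X_insert (T : Finset ℕ) (a : ℕ) (ha : a ∉ T) (n : ℕ) :
    X l (insert a T) n = l (n + a) * X l T n := by
  unfold X
  rw [prod_insert ha]

/-- one of many candidates is good -/
theorem step (U : Ultrafilter ℕ) (hl : ∀ n, l n ^ 2 = 1) (hw : ∀ n, w n ^ 2 = w n) {s : ℝ}
    (hs : 0 < s) (hW : ∀ᶠ N in (U : Filter ℕ), s * N ≤ W w N) (hU : ∀ᶠ N in (U : Filter ℕ), 1 ≤ N)
    (h2 : ∀ a b : ℕ, a ≠ b → ∀ η : ℝ, 0 < η → ∀ᶠ N in (U : Filter ℕ),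
      |∑ n ∈ range N, l (n + a) * l (n + b)| ≤ η * N)
    (B C : Finset ℕ) (hBC : Disjoint B C) {δ : ℝ} (hδ : 0 < δ)
    (hC : 4 ^ B.card / (s * δ ^ 2) < C.card) :
    ∃ a ∈ C, ∀ᶠ N in (U : Filter ℕ), ∑ T ∈ B.powerset, |I w l (insert a T) N| ≤ δ * W w N := by
  by_contra hcon
  push Not at hcon
  have hcon2 : ∀ a ∈ C, ∀ᶠ N in (U : Filter ℕ),
      ¬ (∑ T ∈ B.powerset, |I w l (insert a T) N| ≤ δ * W w N) := fun a ha =>
    (hcon a ha).mono fun N h => not_le.2 h
  obtain ⟨M, hM⟩ : ∃ M : ℝ, M = (C.card : ℝ) := ⟨_, rfl⟩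
  obtain ⟨P, hP⟩ : ∃ P : ℝ, P = (2 : ℝ) ^ B.card := ⟨_, rfl⟩
  have hP0 : 0 < P := by rw [hP]; positivity
  have hPP : (4 : ℝ) ^ B.card = P * P := by
    rw [hP, ← mul_pow]
    norm_num
  have hsd : 0 < s * δ ^ 2 := by positivity
  rw [hPP, ← hM, div_lt_iff₀ hsd] at hC
  have hM0 : 0 < M := by
    by_contra h
    push Not at h
    have h3 : M * (s * δ ^ 2) ≤ 0 := mul_nonpos_of_nonpos_of_nonneg h hsd.le
    have h4 : 0 < P * P := mul_pos hP0 hP0
    linarith
  have hCne : C.Nonempty := by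
    rw [← card_pos]
    rw [hM] at hM0
    exact_mod_cast hM0
  obtain ⟨η, hη⟩ : ∃ η : ℝ, η = (M * (s * δ ^ 2) / (P * P) - 1) / (2 * M) := ⟨_, rfl⟩
  have hq : 1 < M * (s * δ ^ 2) / (P * P) := by
    rw [lt_div_iff₀ (mul_pos hP0 hP0)]
    linarith
  have hη0 : 0 < η := by
    rw [hη]
    apply div_pos <;> linarith
  have hηq : 1 + M * η < M * (s * δ ^ 2) / (P * P) := by
    have : M * η = (M * (s * δ ^ 2) / (P * P) - 1) / 2 := by
      rw [hη]
      field_simp
    rw [this]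
    linarith
  have hev : ∀ᶠ N in (U : Filter ℕ), s * N ≤ W w N ∧ 1 ≤ N ∧
      (∀ a ∈ C, ¬ (∑ T ∈ B.powerset, |I w l (insert a T) N| ≤ δ * W w N)) ∧
      (∀ a ∈ C, ∀ b ∈ C, a ≠ b → |∑ n ∈ range N, l (n + a) * l (n + b)| ≤ η * N) := by
    refine hW.and (hU.and ?_)
    refine ((Finset.eventually_all C).2 hcon2).and ?_
    refine (Finset.eventually_all C).2 fun a _ => (Finset.eventually_all C).2 fun b _ => ?_
    by_cases hab : a = b
    · exact Eventually.of_forall fun N h => absurd hab h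
    · exact (h2 a b hab η hη0).mono fun N h _ => h
  obtain ⟨N, hN1, hN2, hN3, hN4⟩ := hev.exists
  have hNr : (1 : ℝ) ≤ N := by exact_mod_cast hN2
  have hWp : 0 < W w N := lt_of_lt_of_le (by positivity) hN1
  -- the second moment
  have hT : ∀ T ∈ B.powerset, ∑ a ∈ C, I w l (insert a T) N ^ 2 ≤ N * (1 + M * η) * W w N := by
    intro T hT
    have h3 := bessel C (fun n => w n * X l T n) (fun a n => l (n + a)) N η hη0.le
      (fun a _ => by
        have : ∀ n ∈ range N, l (n + a) ^ 2 = 1 := fun n _ => hl _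
        rw [sum_congr rfl this]
        simp) hN4
    have h4 : ∑ n ∈ range N, (w n * X l T n) ^ 2 = W w N := by
      unfold W
      refine sum_congr rfl fun n _ => ?_
      rw [mul_pow, X_sq hl, mul_one, hw]
    rw [h4, ← hM] at h3
    refine le_trans (le_of_eq ?_) h3
    refine sum_congr rfl fun a ha => ?_
    congr 1
    unfold I
    refine sum_congr rfl fun n _ => ?_
    rw [X_insert T a (fun h => disjoint_left.1 hBC (mem_powerset.1 hT h) ha)]
    ring
  have hsum : ∑ a ∈ C, ∑ T ∈ B.powerset, I w l (insert a T) N ^ 2 ≤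
      P * (N * (1 + M * η) * W w N) := by
    rw [sum_comm]
    refine (sum_le_sum hT).trans (le_of_eq ?_)
    rw [sum_const, card_powerset, nsmul_eq_mul, hP]
    push_cast
    ring
  have hlow : ∀ a ∈ C, (δ * W w N) ^ 2 < P * ∑ T ∈ B.powerset, I w l (insert a T) N ^ 2 := by
    intro a ha
    have h3 := hN3 a ha
    push Not at h3
    have h4 : (∑ T ∈ B.powerset, |I w l (insert a T) N|) ^ 2 ≤
        P * ∑ T ∈ B.powerset, I w l (insert a T) N ^ 2 := by
      have h5 := sq_sum_le_card_mul_sum_sq (s := B.powerset)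
        (f := fun T => |I w l (insert a T) N|)
      rw [card_powerset] at h5
      simp only [sq_abs] at h5
      push_cast at h5
      rw [hP]
      exact h5
    have h6 : (δ * W w N) ^ 2 < (∑ T ∈ B.powerset, |I w l (insert a T) N|) ^ 2 :=
      pow_lt_pow_left₀ h3 (by positivity) (by norm_num)
    linarith
  have h5 : M * (δ * W w N) ^ 2 < P * (P * (N * (1 + M * η) * W w N)) := by
    calc M * (δ * W w N) ^ 2 = ∑ a ∈ C, (δ * W w N) ^ 2 := by
          rw [sum_const, nsmul_eq_mul, hM]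
      _ < ∑ a ∈ C, P * ∑ T ∈ B.powerset, I w l (insert a T) N ^ 2 :=
          sum_lt_sum_of_nonempty hCne hlow
      _ = P * ∑ a ∈ C, ∑ T ∈ B.powerset, I w l (insert a T) N ^ 2 := by rw [mul_sum]
      _ ≤ P * (P * (N * (1 + M * η) * W w N)) := mul_le_mul_of_nonneg_left hsum hP0.le
  have h6 : M * δ ^ 2 * W w N < P * P * (N * (1 + M * η)) := by
    have h7 : (M * δ ^ 2 * W w N) * W w N < (P * P * (N * (1 + M * η))) * W w N := by
      calc (M * δ ^ 2 * W w N) * W w N = M * (δ * W w N) ^ 2 := by ring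
        _ < _ := h5
        _ = _ := by ring
    exact lt_of_mul_lt_mul_right h7 hWp.le
  have h8 : M * δ ^ 2 * (s * N) < P * P * (N * (1 + M * η)) :=
    lt_of_le_of_lt (mul_le_mul_of_nonneg_left hN1 (by positivity)) h6
  have h9 : M * (s * δ ^ 2) < P * P * (1 + M * η) := by
    have h10 : (M * (s * δ ^ 2)) * N < (P * P * (1 + M * η)) * N := by linarith
    exact lt_of_mul_lt_mul_right h10 (by linarith)
  have h11 : M * (s * δ ^ 2) / (P * P) < 1 + M * η := by
    rw [div_lt_iff₀ (mul_pos hP0 hP0)]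
    linarith
  linarith

lemma D_empty (N : ℕ) : D w l ∅ N = 0 := by
  unfold D
  simp

lemma D_insert (B : Finset ℕ) (a : ℕ) (ha : a ∉ B) (N : ℕ) :
    D w l (insert a B) N = D w l B N + ∑ T ∈ B.powerset, |I w l (insert a T) N| := by
  unfold D
  rw [powerset_insert]
  have e1 : (B.powerset ∪ B.powerset.image (insert a)).erase ∅ =
      B.powerset.erase ∅ ∪ B.powerset.image (insert a) := by
    rw [erase_union_distrib]
    congr 1
    apply erase_eq_of_notMem
    intro h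
    obtain ⟨T, -, hT⟩ := mem_image.1 h
    exact insert_ne_empty a T hT
  rw [e1, sum_union, sum_image]
  · intro T hT T' hT' h
    have h1 : a ∉ T := fun h => ha (mem_powerset.1 hT h)
    have h2 : a ∉ T' := fun h => ha (mem_powerset.1 hT' h)
    rw [← erase_insert h1, ← erase_insert h2]
    rw [h]
  · rw [disjoint_left]
    intro T hT hT'
    obtain ⟨T', -, rfl⟩ := mem_image.1 hT'
    exact ha (mem_powerset.1 (mem_of_mem_erase hT) (mem_insert_self _ _))

/-- the bound for the number of candidates in step `k` -/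
noncomputable def K (s δ : ℝ) (k : ℕ) : ℕ :=
  ⌊4 ^ k * ((k + 1 : ℝ) * (k + 2)) ^ 2 / (s * δ ^ 2)⌋₊

/-- the construction of the subset -/
theorem build (U : Ultrafilter ℕ) (hl : ∀ n, l n ^ 2 = 1) (hw : ∀ n, w n ^ 2 = w n) {s : ℝ}
    (hs : 0 < s) (hW : ∀ᶠ N in (U : Filter ℕ), s * N ≤ W w N) (hU : ∀ᶠ N in (U : Filter ℕ), 1 ≤ N)
    (h2 : ∀ a b : ℕ, a ≠ b → ∀ η : ℝ, 0 < η → ∀ᶠ N in (U : Filter ℕ),
      |∑ n ∈ range N, l (n + a) * l (n + b)| ≤ η * N)
    (A : ℕ → ℕ) (hA : StrictMono A) {δ : ℝ} (hδ : 0 < δ) :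
    ∃ i : ℕ → ℕ, StrictMono i ∧ (∀ k, i k + 1 ≤ ∑ j ∈ range (k + 1), (K s δ j + 1)) ∧
      ∀ k, ∀ᶠ N in (U : Filter ℕ), D w l ((range k).image fun j => A (i j)) N ≤ δ * W w N := by
  -- the states: the first free index and the set which has been chosen
  let Q : ℕ → ℕ × Finset ℕ → Prop := fun k x => x.1 ≤ ∑ j ∈ range k, (K s δ j + 1) ∧
    (∀ a ∈ x.2, ∃ j < x.1, a = A j) ∧ x.2.card = k ∧
    ∀ᶠ N in (U : Filter ℕ), D w l x.2 N ≤ δ * (1 - 1 / (k + 1)) * W w N
  have hstep : ∀ k (x : {x : ℕ × Finset ℕ // Q k x}), ∃ y : {y : ℕ × Finset ℕ // Q (k + 1) y},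
      ∃ j, x.1.1 ≤ j ∧ y.1 = (j + 1, insert (A j) x.1.2) := by
    rintro k ⟨⟨m, B⟩, hx1, hx2, hx3, hx4⟩
    simp only at hx1 hx2 hx3 hx4
    have hkp : (0 : ℝ) < (k + 1 : ℝ) * (k + 2) := by positivity
    obtain ⟨δ', hδ'⟩ : ∃ δ' : ℝ, δ' = δ / ((k + 1 : ℝ) * (k + 2)) := ⟨_, rfl⟩
    have hδ'0 : 0 < δ' := by rw [hδ']; positivity
    obtain ⟨C, hCd⟩ : ∃ C : Finset ℕ, C = (range (K s δ k + 1)).image fun j => A (m + j) := ⟨_, rfl⟩
    have hinj : Set.InjOn (fun j => A (m + j)) (range (K s δ k + 1) : Set ℕ) := by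
      intro a _ b _ hab
      have := hA.injective hab
      omega
    have hCc : C.card = K s δ k + 1 := by
      rw [hCd, card_image_of_injOn hinj, card_range]
    have hBC : Disjoint B C := by
      rw [disjoint_left]
      intro a ha haC
      obtain ⟨j, hj, rfl⟩ := hx2 a ha
      rw [hCd] at haC
      obtain ⟨j', -, hj'⟩ := mem_image.1 haC
      have := hA.injective hj'
      omega
    obtain ⟨a, haC, ha⟩ := step U hl hw hs hW hU h2 B C hBC hδ'0 (by
      rw [hCc, hx3, hδ']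
      have e : (4 : ℝ) ^ k / (s * (δ / ((k + 1 : ℝ) * (k + 2))) ^ 2) =
          4 ^ k * ((k + 1 : ℝ) * (k + 2)) ^ 2 / (s * δ ^ 2) := by
        field_simp
      rw [e]
      push_cast
      exact Nat.lt_floor_add_one _)
    rw [hCd] at haC
    obtain ⟨j, hj, rfl⟩ := mem_image.1 haC
    rw [mem_range] at hj
    have hnot : A (m + j) ∉ B := by
      intro h
      obtain ⟨j', hj', h'⟩ := hx2 _ h
      have := hA.injective h'
      omega
    refine ⟨⟨(m + j + 1, insert (A (m + j)) B), ?_, ?_, ?_, ?_⟩, m + j, by simp, rfl⟩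
    · rw [sum_range_succ]
      simp only
      omega
    · intro a ha
      rcases mem_insert.1 ha with rfl | ha
      · exact ⟨m + j, by simp, rfl⟩
      · obtain ⟨j', hj', h'⟩ := hx2 a ha
        exact ⟨j', by simp only; omega, h'⟩
    · rw [card_insert_of_notMem hnot, hx3]
    · filter_upwards [hx4, ha] with N h3 h4
      rw [D_insert B _ hnot]
      have e : δ * (1 - 1 / (((k + 1 : ℕ) : ℝ) + 1)) = δ * (1 - 1 / (k + 1)) + δ' := by
        rw [hδ']
        push_cast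
        have h5 : (k : ℝ) + 1 ≠ 0 := by positivity
        have h6 : (k : ℝ) + 2 ≠ 0 := by positivity
        have h7 : (k : ℝ) + 1 + 1 ≠ 0 := by positivity
        field_simp
        ring
      rw [e, add_mul]
      exact add_le_add h3 h4
  choose f hf using hstep
  have h0 : Q 0 (0, ∅) := by
    refine ⟨le_rfl, by simp, rfl, Eventually.of_forall fun N => ?_⟩
    rw [D_empty]
    simp
  let x : (k : ℕ) → {x : ℕ × Finset ℕ // Q k x} := fun k => Nat.rec ⟨(0, ∅), h0⟩ (fun k x => f k x) k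
  have hx : ∀ k, x (k + 1) = f k (x k) := fun k => rfl
  choose g hg1 hg2 using hf
  let i : ℕ → ℕ := fun k => g k (x k)
  have hi1 : ∀ k, (x k).1.1 ≤ i k := fun k => hg1 k (x k)
  have hi2 : ∀ k, (x (k + 1)).1 = (i k + 1, insert (A (i k)) (x k).1.2) := fun k => by
    rw [hx]; exact hg2 k (x k)
  have hi3 : ∀ k, (x (k + 1)).1.1 = i k + 1 := fun k => by rw [hi2]
  have hmono : StrictMono i := by
    apply strictMono_nat_of_lt_succ
    intro k
    have h3 := hi1 (k + 1)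
    rw [hi3] at h3
    omega
  have hB : ∀ k, (x k).1.2 = (range k).image fun j => A (i j) := by
    intro k
    induction k with
    | zero => rfl
    | succ k ih =>
      rw [hi2, range_add_one, image_insert]
      simp only
      rw [ih]
  refine ⟨i, hmono, fun k => ?_, fun k => ?_⟩
  · have h3 := (x (k + 1)).2.1
    rw [hi3] at h3
    exact h3
  · have h3 := (x k).2.2.2.2
    rw [hB] at h3
    filter_upwards [h3, hW] with N h4 h5
    refine h4.trans ?_
    have hW0 : 0 ≤ W w N := le_trans (by positivity) h5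
    have h6 : (0 : ℝ) ≤ 1 / ((k : ℝ) + 1) := by positivity
    have h7 : δ * (1 - 1 / ((k : ℝ) + 1)) ≤ δ := by nlinarith
    exact mul_le_mul_of_nonneg_right h7 hW0

/-- the explicit bound -/
lemma sum_K {s δ : ℝ} (hs : 0 < s) (hs1 : s ≤ 1) (hδ : 0 < δ) (hδ1 : δ ≤ 1) (k : ℕ) :
    ((∑ j ∈ range (k + 1), (K s δ j + 1) : ℕ) : ℝ) ≤
      4 ^ (k + 1) * ((k + 1 : ℝ) * (k + 2)) ^ 2 / (s * δ ^ 2) := by
  have hsd : 0 < s * δ ^ 2 := by positivity
  have hsd1 : s * δ ^ 2 ≤ 1 := by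
    have : δ ^ 2 ≤ 1 := pow_le_one₀ hδ.le hδ1
    nlinarith
  have h1 : ∀ j ∈ range (k + 1), ((K s δ j + 1 : ℕ) : ℝ) ≤
      (4 ^ j + 1 / 4) * (((k + 1 : ℝ) * (k + 2)) ^ 2 / (s * δ ^ 2)) := by
    intro j hj
    rw [mem_range] at hj
    have hjk : (j : ℝ) ≤ k := by exact_mod_cast (by omega : j ≤ k)
    have h2 : (K s δ j : ℝ) ≤ 4 ^ j * ((j + 1 : ℝ) * (j + 2)) ^ 2 / (s * δ ^ 2) :=
      Nat.floor_le (by positivity)
    have h3 : ((j + 1 : ℝ) * (j + 2)) ^ 2 ≤ ((k + 1 : ℝ) * (k + 2)) ^ 2 := by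
      have hj0 : (0 : ℝ) ≤ j := Nat.cast_nonneg j
      gcongr
    have h4 : (4 : ℝ) ^ j * ((j + 1 : ℝ) * (j + 2)) ^ 2 / (s * δ ^ 2) ≤
        4 ^ j * (((k + 1 : ℝ) * (k + 2)) ^ 2 / (s * δ ^ 2)) := by
      rw [mul_div_assoc]
      gcongr
    have h5 : (1 : ℝ) ≤ 1 / 4 * (((k + 1 : ℝ) * (k + 2)) ^ 2 / (s * δ ^ 2)) := by
      have h6 : (4 : ℝ) ≤ ((k + 1 : ℝ) * (k + 2)) ^ 2 := by
        have hk0 : (0 : ℝ) ≤ k := Nat.cast_nonneg k
        have h7 : (2 : ℝ) ≤ (k + 1 : ℝ) * (k + 2) := by nlinarith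
        nlinarith
      have h8 : (4 : ℝ) ≤ ((k + 1 : ℝ) * (k + 2)) ^ 2 / (s * δ ^ 2) := by
        rw [le_div_iff₀ hsd]
        nlinarith
      linarith
    push_cast
    linarith
  push_cast
  have h1' : ∀ j ∈ range (k + 1), ((K s δ j : ℝ) + 1) ≤
      (4 ^ j + 1 / 4) * (((k + 1 : ℝ) * (k + 2)) ^ 2 / (s * δ ^ 2)) := by
    intro j hj
    have := h1 j hj
    push_cast at this
    exact this
  refine (sum_le_sum h1').trans ?_
  rw [← sum_mul, sum_add_distrib, sum_const, card_range, nsmul_eq_mul]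
  have h2 : ∑ j ∈ range (k + 1), (4 : ℝ) ^ j = (4 ^ (k + 1) - 1) / 3 := by
    rw [geom_sum_eq (by norm_num)]
    norm_num
  have h3 : (((k + 1 : ℕ) : ℝ)) * (1 / 4) ≤ 4 ^ (k + 1) / 4 := by
    have h4 : (((k + 1 : ℕ) : ℝ)) ≤ 4 ^ (k + 1) := by
      exact_mod_cast (Nat.lt_pow_self (by norm_num : 1 < 4)).le
    linarith
  rw [h2]
  have h5 : (4 ^ (k + 1) - 1) / 3 + (((k + 1 : ℕ) : ℝ)) * (1 / 4) ≤ 4 ^ (k + 1) := by
    have : (0 : ℝ) < 4 ^ (k + 1) := by positivity
    linarith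
  rw [mul_div_assoc]
  exact mul_le_mul_of_nonneg_right h5 (by positivity)

/-- patterns from correlations -/
theorem pattern (hl : ∀ n, l n = 1 ∨ l n = -1) (B : Finset ℕ) (F : Finset ℕ) (hF : F ⊆ B)
    (e : ℕ → ℝ) (he : ∀ a, e a = 1 ∨ e a = -1) (N : ℕ) :
    |2 ^ F.card * ∑ n ∈ range N, w n * (if ∀ a ∈ F, l (n + a) = e a then 1 else 0) - W w N| ≤
      D w l B N := by
  classical
  have h1 : ∀ n, 2 ^ F.card * (w n * (if ∀ a ∈ F, l (n + a) = e a then (1 : ℝ) else 0)) =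
      ∑ T ∈ F.powerset, (∏ a ∈ T, e a) * (w n * X l T n) := by
    intro n
    have h2 : (∏ a ∈ F, (1 + e a * l (n + a))) =
        2 ^ F.card * (if ∀ a ∈ F, l (n + a) = e a then (1 : ℝ) else 0) := by
      split_ifs with h
      · rw [mul_one, ← prod_const]
        refine prod_congr rfl fun a ha => ?_
        rw [h a ha]
        rcases he a with h3 | h3 <;> rw [h3] <;> norm_num
      · push Not at h
        obtain ⟨a, ha, hne⟩ := h
        rw [mul_zero]
        refine prod_eq_zero ha ?_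
        rcases he a with h3 | h3 <;> rcases hl (n + a) with h4 | h4
        · exact absurd (h4.trans h3.symm) hne
        · rw [h3, h4]; norm_num
        · rw [h3, h4]; norm_num
        · exact absurd (h4.trans h3.symm) hne
    have h3 : (∏ a ∈ F, (1 + e a * l (n + a))) = ∑ T ∈ F.powerset, (∏ a ∈ T, e a) * X l T n := by
      rw [prod_one_add]
      refine sum_congr rfl fun T _ => ?_
      rw [prod_mul_distrib]
      rfl
    rw [mul_left_comm, ← h2, h3, mul_sum]
    exact sum_congr rfl fun T _ => by ring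
  have h2 : 2 ^ F.card * ∑ n ∈ range N, w n * (if ∀ a ∈ F, l (n + a) = e a then (1 : ℝ) else 0) =
      ∑ T ∈ F.powerset, (∏ a ∈ T, e a) * I w l T N := by
    rw [mul_sum, sum_congr rfl fun n _ => h1 n, sum_comm]
    refine sum_congr rfl fun T _ => ?_
    rw [← mul_sum]
    rfl
  have h3 : ∑ T ∈ F.powerset, (∏ a ∈ T, e a) * I w l T N =
      W w N + ∑ T ∈ F.powerset.erase ∅, (∏ a ∈ T, e a) * I w l T N := by
    rw [← add_sum_erase _ _ (empty_mem_powerset F)]
    congr 1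
    rw [prod_empty, one_mul]
    unfold I W X
    simp
  rw [h2, h3, add_sub_cancel_left]
  refine (abs_sum_le_sum_abs _ _).trans ?_
  unfold D
  have h4 : ∀ T ∈ F.powerset.erase ∅, |(∏ a ∈ T, e a) * I w l T N| = |I w l T N| := by
    intro T _
    rw [abs_mul, abs_prod]
    have : ∀ a ∈ T, |e a| = 1 := by
      intro a _
      rcases he a with h | h <;> rw [h] <;> norm_num
    rw [prod_congr rfl this, prod_const_one, one_mul]
  rw [sum_congr rfl h4]
  refine sum_le_sum_of_subset_of_nonneg ?_ fun T _ _ => abs_nonneg _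
  exact erase_subset_erase _ (powerset_mono.2 hF)

end

end Pool.Agent.Helper84K9.IS
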