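import Mathlib

/-!
# Logarithmic density and scales (helper84)
-/

set_option autoImplicit false

open scoped Classical

namespace Pool.Agent.Helper84K9.IS

open Finset Filter Topology

/-- the sum of the reciprocals of the members of `S` up to `X` -/
noncomputable def rec (S : Set ℕ) (X : ℕ) : ℝ := ∑ n ∈ Icc 1 X, if n ∈ S then (1 : ℝ) / n else 0

/-- the number of the members of `S` below `N` -/
noncomputable def count (S : Set ℕ) (N : ℕ) : ℕ := ((range N).filter fun n => n ∈ S).card

lemma rec_nonneg (S : Set ℕ) (X : ℕ) : 0 ≤ rec S X := by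
  unfold rec
  refine sum_nonneg fun n _ => ?_
  split_ifs
  · positivity
  · exact le_rfl

lemma rec_succ (S : Set ℕ) (X : ℕ) :
    rec S (X + 1) = rec S X + if X + 1 ∈ S then (1 : ℝ) / ((X + 1 : ℕ) : ℝ) else 0 := by
  unfold rec
  rw [← insert_Icc_right_eq_Icc_add_one (by omega), sum_insert (by simp), add_comm]

lemma rec_succ_le (S : Set ℕ) (X : ℕ) : rec S (X + 1) ≤ rec S X + 1 := by
  rw [rec_succ]
  have h : (1 : ℝ) / ((X + 1 : ℕ) : ℝ) ≤ 1 := by
    rw [div_le_one (by positivity)]
    push_cast
    have : (0 : ℝ) ≤ X := Nat.cast_nonneg X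
    linarith
  split_ifs <;> linarith

lemma count_succ (S : Set ℕ) (N : ℕ) : count S (N + 1) = count S N + if N ∈ S then 1 else 0 := by
  unfold count
  rw [range_add_one, filter_insert]
  split_ifs with h
  · rw [card_insert_of_notMem (by simp)]
  · rfl

lemma count_le (S : Set ℕ) (N : ℕ) : count S N ≤ N := by
  unfold count
  exact (card_filter_le _ _).trans (by rw [card_range])

/-- partial summation -/
lemma rec_le (S : Set ℕ) (X : ℕ) :
    rec S X ≤ (count S (X + 1) : ℝ) / (X + 1) + ∑ n ∈ range X, (count S (n + 2) : ℝ) / ((n + 1) * (n + 2)) := by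
  induction X with
  | zero =>
    unfold rec
    simp only [zero_lt_one, Icc_eq_empty_of_lt, sum_empty, range_zero, add_zero]
    positivity
  | succ X ih =>
    rw [rec_succ, sum_range_succ]
    have h1 : (count S (X + 1 + 1) : ℝ) = count S (X + 1) + if X + 1 ∈ S then (1 : ℝ) else 0 := by
      rw [count_succ]
      push_cast
      rfl
    rw [h1]
    have hX : (0 : ℝ) ≤ X := Nat.cast_nonneg X
    obtain ⟨c, hc⟩ : ∃ c : ℝ, c = (count S (X + 1) : ℝ) := ⟨_, rfl⟩
    rw [← hc] at ih ⊢
    have key : c / (X + 1) + (if X + 1 ∈ S then (1 : ℝ) / ((X + 1 : ℕ) : ℝ) else 0) =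
        (c + if X + 1 ∈ S then (1 : ℝ) else 0) / (((X + 1 : ℕ) : ℝ) + 1) +
        (c + if X + 1 ∈ S then (1 : ℝ) else 0) / ((X + 1) * (X + 2)) := by
      have h3 : (X : ℝ) + 1 ≠ 0 := by positivity
      have h4 : (X : ℝ) + 2 ≠ 0 := by positivity
      have h5 : (X : ℝ) + 1 + 1 ≠ 0 := by positivity
      split_ifs
      · push_cast
        field_simp
        ring
      · push_cast
        field_simp
        ring
    linarith

lemma tele (X : ℕ) : ∑ n ∈ range X, (1 : ℝ) / ((n + 1) * (n + 2)) ≤ 1 := by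
  have h : ∀ X : ℕ, ∑ n ∈ range X, (1 : ℝ) / ((n + 1) * (n + 2)) = 1 - 1 / (X + 1) := by
    intro X
    induction X with
    | zero => simp
    | succ X ih =>
      rw [sum_range_succ, ih]
      push_cast
      have h3 : (X : ℝ) + 1 ≠ 0 := by positivity
      have h4 : (X : ℝ) + 2 ≠ 0 := by positivity
      have h5 : (X : ℝ) + 1 + 1 ≠ 0 := by positivity
      field_simp
      ring
  rw [h]
  have : (0 : ℝ) ≤ 1 / (X + 1) := by positivity
  linarith

lemma harm (X : ℕ) : ∑ n ∈ range X, (1 : ℝ) / ((n : ℝ) + 1) ≤ 1 + Real.log X := by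
  have h := harmonic_le_one_add_log X
  refine le_trans (le_of_eq ?_) h
  unfold harmonic
  push_cast
  exact sum_congr rfl fun n _ => by rw [one_div]

/-- a set of positive upper logarithmic density has many scales with many members -/
theorem scales (S : Set ℕ) {s t : ℝ} (hs : 0 ≤ s) (hst : s < t)
    (hS : ∃ᶠ X : ℕ in atTop, t * Real.log X ≤ rec S X)
    (hG : Tendsto (fun X : ℕ => rec {N : ℕ | s * N ≤ count S N} X / Real.log X) atTop (𝓝 0)) :
    False := by
  obtain ⟨G, hGd⟩ : ∃ G : Set ℕ, G = {N : ℕ | s * N ≤ count S N} := ⟨_, rfl⟩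
  rw [← hGd] at hG
  have hmain : ∀ X : ℕ, rec S X ≤ s * Real.log X + rec G X + (s + 3) := by
    intro X
    have h1 := rec_le S X
    have h2 : (count S (X + 1) : ℝ) / (X + 1) ≤ 1 := by
      rw [div_le_one (by positivity)]
      exact_mod_cast count_le S (X + 1)
    have h3 : ∀ n ∈ range X, (count S (n + 2) : ℝ) / ((n + 1) * (n + 2)) ≤
        s * (1 / ((n : ℝ) + 1)) + (if n + 2 ∈ G then (1 : ℝ) / ((n + 2 : ℕ) : ℝ) else 0) +
          1 / ((n + 1) * (n + 2)) := by
      intro n _
      have hn : (0 : ℝ) ≤ n := Nat.cast_nonneg n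
      have h0 : (0 : ℝ) ≤ 1 / ((n + 1) * (n + 2)) := by positivity
      split_ifs with h
      · have h4 : (count S (n + 2) : ℝ) ≤ (n + 2 : ℕ) := by exact_mod_cast count_le S (n + 2)
        have h6 : (count S (n + 2) : ℝ) / ((n + 1) * (n + 2)) ≤ 1 / ((n : ℝ) + 1) := by
          rw [div_le_div_iff₀ (by positivity) (by positivity)]
          push_cast at h4
          nlinarith
        have h7 : (1 : ℝ) / ((n : ℝ) + 1) = 1 / ((n + 2 : ℕ) : ℝ) + 1 / ((n + 1) * (n + 2)) := by
          push_cast
          field_simp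
          ring
        have h8 : (0 : ℝ) ≤ s * (1 / ((n : ℝ) + 1)) := by positivity
        linarith
      · have h4 : (count S (n + 2) : ℝ) < s * ((n + 2 : ℕ) : ℝ) := by
          rw [hGd] at h
          simpa using h
        have h5 : (count S (n + 2) : ℝ) / ((n + 1) * (n + 2)) ≤ s * (1 / ((n : ℝ) + 1)) := by
          rw [mul_one_div, div_le_div_iff₀ (by positivity) (by positivity)]
          push_cast at h4
          nlinarith
        linarith
    have h4 := sum_le_sum h3
    rw [sum_add_distrib, sum_add_distrib, ← mul_sum] at h4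
    have h5 : ∑ n ∈ range X, (if n + 2 ∈ G then (1 : ℝ) / ((n + 2 : ℕ) : ℝ) else 0) ≤
        rec G (X + 1) := by
      unfold rec
      have e : ∑ n ∈ range X, (if n + 2 ∈ G then (1 : ℝ) / ((n + 2 : ℕ) : ℝ) else 0) =
          ∑ m ∈ (range X).image (fun n => n + 2), if m ∈ G then (1 : ℝ) / (m : ℝ) else 0 := by
        rw [sum_image (fun a _ b _ h => by simpa using h)]
      rw [e]
      refine sum_le_sum_of_subset_of_nonneg ?_ ?_
      · intro m hm
        obtain ⟨n, hn, rfl⟩ := mem_image.1 hm
        rw [mem_range] at hn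
        rw [mem_Icc]
        omega
      · intro m _ _
        split_ifs
        · positivity
        · exact le_rfl
    have h6 := rec_succ_le G X
    have h7 := tele X
    have h8 := mul_le_mul_of_nonneg_left (harm X) hs
    nlinarith
  have hlog : Tendsto (fun X : ℕ => Real.log (X : ℝ)) atTop atTop :=
    Real.tendsto_log_atTop.comp tendsto_natCast_atTop_atTop
  have h1 : ∀ᶠ X : ℕ in atTop, rec G X / Real.log X < (t - s) / 4 :=
    hG.eventually (gt_mem_nhds (by linarith))
  have h2 : ∀ᶠ X : ℕ in atTop, 4 * (s + 3) / (t - s) < Real.log X := hlog.eventually_gt_atTop _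
  have h3 : ∀ᶠ X : ℕ in atTop, (0 : ℝ) < Real.log X := hlog.eventually_gt_atTop _
  obtain ⟨X, hX, h4, h5, h6⟩ := (hS.and_eventually (h1.and (h2.and h3))).exists
  have h7 := hmain X
  rw [div_lt_iff₀ h6] at h4
  rw [div_lt_iff₀ (by linarith)] at h5
  nlinarith

/-- sets which differ little have the same density -/
theorem null_of_eventually (G E : Set ℕ) (h : ∀ᶠ N in atTop, N ∈ G → N ∈ E)
    (hE : Tendsto (fun X : ℕ => rec E X / Real.log X) atTop (𝓝 0)) :
    Tendsto (fun X : ℕ => rec G X / Real.log X) atTop (𝓝 0) := by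
  obtain ⟨N₀, hN₀⟩ := eventually_atTop.1 h
  have h1 : ∀ X, rec G X ≤ rec E X + N₀ := by
    intro X
    unfold rec
    have h2 : ∀ n ∈ Icc 1 X, (if n ∈ G then (1 : ℝ) / n else 0) ≤
        (if n ∈ E then (1 : ℝ) / n else 0) + if n < N₀ then 1 else 0 := by
      intro n hn
      rw [mem_Icc] at hn
      have hn1 : (1 : ℝ) ≤ n := by exact_mod_cast hn.1
      have h3 : (1 : ℝ) / n ≤ 1 := by rw [div_le_one (by linarith)]; exact hn1
      have h4 : (0 : ℝ) ≤ 1 / n := by positivity
      by_cases hG : n ∈ G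
      · rw [if_pos hG]
        by_cases hN : n < N₀
        · rw [if_pos hN]
          split_ifs <;> linarith
        · rw [if_pos (hN₀ n (by omega) hG), if_neg hN]
          linarith
      · rw [if_neg hG]
        split_ifs <;> linarith
    refine (sum_le_sum h2).trans ?_
    rw [sum_add_distrib]
    gcongr
    rw [← sum_filter, sum_const, nsmul_eq_mul, mul_one]
    have h5 : ((Icc 1 X).filter fun n => n < N₀).card ≤ N₀ := by
      refine (card_le_card (t := range N₀) ?_).trans (by rw [card_range])
      intro n hn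
      rw [mem_filter] at hn
      exact mem_range.2 hn.2
    exact_mod_cast h5
  have hlog : Tendsto (fun X : ℕ => Real.log (X : ℝ)) atTop atTop :=
    Real.tendsto_log_atTop.comp tendsto_natCast_atTop_atTop
  have h2 : Tendsto (fun X : ℕ => rec E X / Real.log X + N₀ / Real.log X) atTop (𝓝 0) := by
    have := hE.add (hlog.const_div_atTop (N₀ : ℝ))
    simpa using this
  refine squeeze_zero' ?_ ?_ h2
  · filter_upwards [hlog.eventually_gt_atTop 0] with X hX
    exact div_nonneg (rec_nonneg _ _) hX.le
  · filter_upwards [hlog.eventually_gt_atTop 0] with X hX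
    rw [← add_div]
    exact div_le_div_of_nonneg_right (h1 X) hX.le

end Pool.Agent.Helper84K9.IS
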