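import Pool.Agent.Helper84K9.IS.Core
import Pool.Agent.Helper84K9.IS.Dens
import Pool.Agent.R509.TT.Two

/-!
# Independent shifts of the Liouville function (helper84)
-/

set_option autoImplicit false

open scoped Classical

namespace Pool.Agent.Helper84K9.IS

open Finset Filter Topology
open Pool.Agent.Y958.U (LZ)
open Pool.Agent.R509.TT (l exc)

lemma LZ_iff (E : Set ℕ) : LZ E ↔ Tendsto (fun X : ℕ => rec E X / Real.log X) atTop (𝓝 0) :=
  Iff.rfl

lemma l_pm' (n : ℕ) : l n = 1 ∨ l n = -1 := by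
  unfold l
  exact neg_one_pow_eq_or ℝ _

lemma l_sq (n : ℕ) : l n ^ 2 = 1 := by
  rcases l_pm' n with h | h <;> rw [h] <;> norm_num

lemma shift (f : ℕ → ℝ) (hf : ∀ n, |f n| ≤ 1) (a N : ℕ) :
    |∑ n ∈ range N, f (n + a) - ∑ n ∈ range N, f n| ≤ 2 * a := by
  have h1 := sum_range_add f a N
  have h2 := sum_range_add f N a
  rw [add_comm N a, h1] at h2
  have h3 : ∑ n ∈ range N, f (n + a) = ∑ n ∈ range N, f (a + n) :=
    sum_congr rfl fun n _ => by rw [add_comm]
  have h4 : |∑ n ∈ range a, f (N + n)| ≤ a := by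
    refine (abs_sum_le_sum_abs _ _).trans ?_
    refine (sum_le_sum fun n _ => hf (N + n)).trans (by simp)
  have h5 : |∑ n ∈ range a, f n| ≤ a := by
    refine (abs_sum_le_sum_abs _ _).trans ?_
    refine (sum_le_sum fun n _ => hf n).trans (by simp)
  rw [h3]
  rw [abs_le] at h4 h5 ⊢
  constructor <;> linarith [h4.1, h4.2, h5.1, h5.2]

/-- the two point theorem for two shifts -/
theorem pair : ∃ E : Set ℕ, LZ E ∧ ∀ a b : ℕ, a ≠ b → ∀ η : ℝ, 0 < η →
    ∃ N₀ : ℕ, ∀ N : ℕ, N₀ ≤ N → N ∉ E → |∑ n ∈ range N, l (n + a) * l (n + b)| ≤ η * N := by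
  obtain ⟨E, hE, h⟩ := exc
  have key : ∀ a b : ℕ, a < b → ∀ η : ℝ, 0 < η →
      ∃ N₀ : ℕ, ∀ N : ℕ, N₀ ≤ N → N ∉ E → |∑ n ∈ range N, l (n + a) * l (n + b)| ≤ η * N := by
    intro a b hab η hη
    obtain ⟨N₀, hN₀⟩ := h (b - a) (by omega) (η / 2) (by positivity)
    obtain ⟨N₁, hN₁⟩ := exists_nat_ge (4 * a / η)
    refine ⟨N₀ + N₁, fun N hN hNE => ?_⟩
    have h1 := hN₀ N (by omega) hNE
    have h2 := shift (fun n => l n * l (n + (b - a))) (fun n => by
      rw [abs_mul]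
      rcases l_pm' n with h | h <;> rcases l_pm' (n + (b - a)) with h' | h' <;> rw [h, h'] <;>
        norm_num) a N
    have h3 : ∀ n, n + a + (b - a) = n + b := fun n => by omega
    simp only [h3] at h2
    have h4 : 2 * (a : ℝ) ≤ η / 2 * N := by
      have h5 : (N₁ : ℝ) ≤ N := by exact_mod_cast (by omega : N₁ ≤ N)
      rw [div_le_iff₀ hη] at hN₁
      nlinarith
    have h5 := abs_sub_abs_le_abs_sub (∑ n ∈ range N, l (n + a) * l (n + b))
      (∑ n ∈ range N, l n * l (n + (b - a)))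
    linarith
  refine ⟨E, hE, fun a b hab η hη => ?_⟩
  rcases lt_or_gt_of_ne hab with h1 | h1
  · exact key a b h1 η hη
  · obtain ⟨N₀, hN₀⟩ := key b a h1 η hη
    refine ⟨N₀, fun N hN hNE => ?_⟩
    have := hN₀ N hN hNE
    rw [sum_congr rfl fun n _ => mul_comm (l (n + a)) (l (n + b))]
    exact this

/-- the upper logarithmic density of `S` is larger than `s` -/
def Dense (S : Set ℕ) (s : ℝ) : Prop :=
  ∃ t : ℝ, s < t ∧ ∃ᶠ X : ℕ in atTop, t * Real.log X ≤ rec S X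

theorem main (A : ℕ → ℕ) (hA : StrictMono A) (S : Set ℕ) (s : ℝ) (hs : 0 < s) (hS : Dense S s)
    (δ : ℝ) (hδ : 0 < δ) (hδ1 : δ ≤ 1) :
    ∃ i : ℕ → ℕ, StrictMono i ∧
      (∀ k, (i k : ℝ) + 1 ≤ 4 ^ (k + 1) * ((k + 1 : ℝ) * (k + 2)) ^ 2 / (s * δ ^ 2)) ∧
      ∃ N : ℕ → ℕ, StrictMono N ∧ ∀ (F : Finset ℕ) (ε : ℕ → ℤ), (∀ k, ε k = 1 ∨ ε k = -1) →
        ∀ᶠ j in atTop, s * N j ≤ count S (N j) ∧
          |2 ^ F.card * (count {n | n ∈ S ∧ ∀ k ∈ F,
            (-1 : ℤ) ^ ArithmeticFunction.cardFactors (n + A (i k)) = ε k} (N j) : ℝ) -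
            count S (N j)| ≤ δ * count S (N j) := by
  obtain ⟨E, hE, hpair⟩ := pair
  obtain ⟨t, hst, hfr⟩ := hS
  obtain ⟨G, hG⟩ : ∃ G : Set ℕ, G = {N : ℕ | s * N ≤ count S N} := ⟨_, rfl⟩
  have hGE : ∃ᶠ N in atTop, N ∈ G \ E := by
    intro hcon
    have h1 : ∀ᶠ N in atTop, N ∈ G → N ∈ E := by
      filter_upwards [hcon] with N hN hNG
      by_contra h
      exact hN ⟨hNG, h⟩
    have h2 := null_of_eventually G E h1 hE
    rw [hG] at h2
    exact scales S hs.le hst hfr h2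
  have hne : NeBot (atTop ⊓ 𝓟 (G \ E)) := frequently_mem_iff_neBot.1 hGE
  let U : Ultrafilter ℕ := Ultrafilter.of (atTop ⊓ 𝓟 (G \ E))
  have hU1 : (U : Filter ℕ) ≤ atTop := (Ultrafilter.of_le _).trans inf_le_left
  have hU2 : ∀ᶠ N in (U : Filter ℕ), N ∈ G \ E := by
    have : (U : Filter ℕ) ≤ 𝓟 (G \ E) := (Ultrafilter.of_le _).trans inf_le_right
    exact le_principal_iff.1 this
  obtain ⟨w, hw⟩ : ∃ w : ℕ → ℝ, w = fun n => if n ∈ S then 1 else 0 := ⟨_, rfl⟩
  have hw2 : ∀ n, w n ^ 2 = w n := by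
    intro n
    rw [hw]
    simp only
    split_ifs <;> norm_num
  have hWc : ∀ N, W w N = count S N := by
    intro N
    unfold W count
    rw [hw, sum_boole]
  have hW : ∀ᶠ N in (U : Filter ℕ), s * N ≤ W w N := by
    filter_upwards [hU2] with N hN
    rw [hWc]
    have := hN.1
    rw [hG] at this
    exact this
  have hU : ∀ᶠ N in (U : Filter ℕ), 1 ≤ N := hU1 (eventually_ge_atTop 1)
  have h2 : ∀ a b : ℕ, a ≠ b → ∀ η : ℝ, 0 < η → ∀ᶠ N in (U : Filter ℕ),
      |∑ n ∈ range N, l (n + a) * l (n + b)| ≤ η * N := by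
    intro a b hab η hη
    obtain ⟨N₀, hN₀⟩ := hpair a b hab η hη
    filter_upwards [hU2, hU1 (eventually_ge_atTop N₀)] with N h3 h4
    exact hN₀ N h4 h3.2
  obtain ⟨i, hi1, hi2, hi3⟩ := build U l_sq hw2 hs hW hU h2 A hA hδ
  have hs1 : s ≤ 1 := by
    obtain ⟨N, h3, h4⟩ := (hW.and hU).exists
    rw [hWc] at h3
    have h5 : (count S N : ℝ) ≤ N := by exact_mod_cast count_le S N
    have h6 : (1 : ℝ) ≤ N := by exact_mod_cast h4
    by_contra h7
    push Not at h7
    nlinarith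
  refine ⟨i, hi1, fun k => ?_, ?_⟩
  · refine le_trans ?_ (sum_K hs hs1 hδ hδ1 k)
    exact_mod_cast hi2 k
  obtain ⟨P, hP⟩ : ∃ P : ℕ → ℕ → Prop, P = fun j N => s * N ≤ W w N ∧
    ∀ k ≤ j, D w l ((range k).image fun j => A (i j)) N ≤ δ * W w N := ⟨_, rfl⟩
  have hPf : ∀ j, ∃ᶠ N in atTop, P j N := by
    intro j
    have h3 : ∀ᶠ N in (U : Filter ℕ), P j N := by
      rw [hP]
      refine hW.and ?_
      have h4 : ∀ᶠ N in (U : Filter ℕ), ∀ k ∈ range (j + 1),
          D w l ((range k).image fun j => A (i j)) N ≤ δ * W w N :=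
        (Finset.eventually_all _).2 fun k _ => hi3 k
      filter_upwards [h4] with N h5 k hk
      exact h5 k (mem_range.2 (by omega))
    exact h3.frequently.filter_mono hU1
  obtain ⟨N, hN1, hN2⟩ := extraction_forall_of_frequently hPf
  refine ⟨N, hN1, fun F ε hε => ?_⟩
  have hinj : Function.Injective fun k => A (i k) := (hA.comp hi1).injective
  obtain ⟨k, hk⟩ : ∃ k, ∀ m ∈ F, m < k := ⟨F.sup id + 1, fun m hm => by
    have := Finset.le_sup (f := id) hm
    simp only [id] at this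
    omega⟩
  filter_upwards [eventually_ge_atTop k] with j hj
  have h3 := hN2 j
  rw [hP] at h3
  obtain ⟨h4, h5⟩ := h3
  have h6 := h5 k hj
  rw [hWc] at h4 h6
  refine ⟨h4, le_trans ?_ h6⟩
  have h7 := pattern (w := w) l_pm' ((range k).image fun j => A (i j)) (F.image fun k => A (i k))
    (image_subset_image fun m hm => mem_range.2 (hk m hm))
    (fun a => (ε (Function.invFun (fun k => A (i k)) a) : ℝ)) (fun a => by
      rcases hε (Function.invFun (fun k => A (i k)) a) with h | h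
      · left; rw [h]; norm_num
      · right; rw [h]; norm_num) (N j)
  rw [card_image_of_injective _ hinj, hWc] at h7
  refine le_trans (le_of_eq ?_) h7
  congr 3
  unfold count
  rw [hw]
  simp only
  rw [← sum_boole]
  refine sum_congr rfl fun n _ => ?_
  have e1 : (∀ a ∈ F.image fun k => A (i k),
      l (n + a) = (ε (Function.invFun (fun k => A (i k)) a) : ℝ)) ↔
      ∀ k ∈ F, (-1 : ℤ) ^ ArithmeticFunction.cardFactors (n + A (i k)) = ε k := by
    constructor
    · intro h k hk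
      have h8 := h (A (i k)) (mem_image_of_mem _ hk)
      rw [Function.leftInverse_invFun hinj k] at h8
      unfold l at h8
      exact_mod_cast h8
    · intro h a ha
      obtain ⟨k, hk, rfl⟩ := mem_image.1 ha
      rw [Function.leftInverse_invFun hinj k, ← h k hk]
      unfold l
      push_cast
      rfl
  by_cases h8 : n ∈ S
  · by_cases h9 : ∀ k ∈ F, (-1 : ℤ) ^ ArithmeticFunction.cardFactors (n + A (i k)) = ε k
    · rw [if_pos h8, if_pos (e1.2 h9), if_pos ⟨h8, h9⟩, mul_one]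
    · rw [if_pos h8, if_neg (fun h => h9 (e1.1 h)), if_neg (fun h => h9 h.2), mul_zero]
  · rw [if_neg h8, zero_mul, if_neg (fun h => h8 h.1)]

end Pool.Agent.Helper84K9.IS
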